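import Pool.Agent.H16.Hs

set_option autoImplicit false

namespace Pool.Agent.Results.MP_415091_an.Chaos

open Filter Topology Pool.Agent.H16.Hs

/-- Index `i` stands for `x_{i-2}`. -/
theorem result : ∃ α A B : ℝ, 0 < α ∧ 0 < A ∧ 0 < B ∧ ∃ x : ℕ → ℝ, (∀ n, 0 ≤ x n) ∧
    (∀ n, x (n + 3) = (α + x n) / (A + B * x (n + 2) + x (n + 1))) ∧
    BddAbove (Set.range x) ∧
    ¬ Tendsto x atTop (𝓝 ((1 - A + √((1 - A) ^ 2 + 4 * α * (B + 1))) / (2 * (B + 1)))) ∧
    ∀ (p : ℕ → ℝ) (k : ℕ), 1 ≤ k → (∀ n, p (n + k) = p n) →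
      ¬ Tendsto (fun n => x n - p n) atTop (𝓝 0) := by
  obtain ⟨ε, e0, e1, H⟩ := horse'
  obtain ⟨z, η, η0, z0, z1, z2⟩ := H (fun a b c => ε + a / (c + ε ^ 6 * |b - ε|))
    (by fun_prop (disch := exact fun _ ⟨_, _, _⟩ => by positivity))
    (fun a _ b _ c _ => by positivity) fun a ha b hb c hc => by
      have e2 : 0 < ε ^ 2 := by positivity
      have a0 := e2.trans_le ha.1
      have b0 := e2.trans_le hb.1
      have c0 := e2.trans_le hc.1
      have h0 : 1 ≤ (ε ^ 4)⁻¹ := (one_le_inv₀ (by positivity)).2 (pow_le_one₀ e0.le e1.le)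
      have h1 : ε ^ 6 * |b - ε| ≤ c := (mul_le_mul_of_nonneg_left (abs_le.2
        ⟨by linarith, by linarith [hb.2]⟩ : _ ≤ (ε ^ 4)⁻¹) (by positivity)).trans
        (le_of_eq_of_le (by field_simp) hc.1)
      have h2 : a / (c + ε ^ 6 * |b - ε|) ≤ a / c := by gcongr; simp; positivity
      have h3 : a / c / 2 ≤ a / (c + ε ^ 6 * |b - ε|) := by rw [div_div]; gcongr; linarith
      have : 0 < a / c := by positivity
      constructor <;> linarith
  have zp : ∀ n, 0 < z n := fun n => (by positivity : 0 < ε ^ 2).trans_le (z1 n).1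
  have ze : ∀ n, 0 ≤ z (n + 3) - ε := fun n => by
    have := zp n
    have := zp (n + 2)
    rw [z0, add_sub_cancel_left]; positivity
  have key := np (x := fun n => ε ^ 6 * (z (n + 3) - ε)) (η := ε ^ 6 * η) (by positivity)
    fun k hk N => by
      obtain ⟨n, a, b⟩ := z2 k hk (N + 3)
      obtain ⟨m, rfl⟩ : ∃ m, n = m + 3 := ⟨n - 3, by omega⟩
      refine ⟨m, by omega, 46, le_trans ?_ (le_abs_self _)⟩
      rw [← mul_sub, add_right_comm m _ 3]; gcongr; linarith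
  refine ⟨ε ^ 7, ε, 1 / ε ^ 6, by positivity, e0, by positivity,
    fun n => ε ^ 6 * (z (n + 3) - ε), fun n => mul_nonneg (by positivity) (ze n), fun n => ?_,
    ⟨ε ^ 6 * (ε ^ 4)⁻¹, ?_⟩,
    fun h => key (fun _ => _) 1 le_rfl (fun _ => rfl) (tendsto_sub_nhds_zero_iff.2 h), key⟩
  · have := ze (n + 1)
    have := zp (n + 2 + 3)
    simp only
    rw [z0 (n + 3), add_right_comm n 3 1, add_right_comm n 3 2, abs_of_nonneg (ze _),
      show ε + 1 / ε ^ 6 * (ε ^ 6 * (z (n + 2 + 3) - ε)) = z (n + 2 + 3) by field_simp; ring]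
    field_simp; ring
  · rintro _ ⟨n, rfl⟩
    simp only
    gcongr; linarith [(z1 (n + 3)).2]

end Pool.Agent.Results.MP_415091_an.Chaos
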